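import Pool.Agent.helper10.NTA.GRP
import Pool.Agent.helper13.NTA.MIS
import Pool.Agent.helper14.NTA.CONR
import Pool.Agent.helper20.NTA.QGR
import Pool.Agent.helper20.NTA.WLK
import Pool.Agent.helper22.NTA.RED
import Pool.Agent.helper24.NTA.FRT
import Pool.Agent.helper25.NTA.XCT
import Pool.Agent.helper27.NTA.DIV
import Pool.Agent.helper34.NTA.FINS
import Pool.Agent.helper39.NTA.CLK
import Pool.Agent.helper41.NTA.CNX
import Pool.Agent.helper42.NTA.CNT
import Pool.Agent.helper43.NTA.SYS
import Pool.Agent.helper44.NTA.UNI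
import Pool.Agent.helper48.NTA.CYL
import Pool.Agent.helper48.NTA.FAC
import Pool.Agent.helper49.NTA.CLA
import Pool.Agent.helper50.NTA.LMP
import Pool.Agent.helper56.NTA.EUL
import Pool.Agent.helper63.NTA.ABS
import Pool.Agent.helper68.NTA.EVL
import Pool.Agent.helper68.NTA.WRD
import Pool.Agent.helper69.NTA.ROT
import Pool.Agent.helper85.NTA.NXT
import Pool.Agent.helper87.NTA.GEN
import Pool.Agent.helper9.NTA.GFA
import Pool.Agent.helper91.NTA.POS

set_option autoImplicit false

/-!
# MP_4536c8_co: a graph of reduced genus `g` which is not an intersection graph of arcs on `S_g`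

Definitions: `Pool/Agent/helper34/NTA/Defs.lean`.
-/

namespace Pool.Agent.Results.MP_4536c8_co.NotArcGraph

open Pool.Agent.NTA

/-- There is a finite graph `G` (simple and triangle-free), of reduced genus `g`, which is not the intersection
multigraph of any finite family of nowhere tangent arcs on the closed orientable surface of genus `g`. -/
theorem result : ∃ (X : Type) (_ : Finite X) (G : MGraph X) (g : ℕ), (∀ x y, G.m x y ≤ 1) ∧
    (∀ x y z, G.m x y ≠ 0 → G.m y z ≠ 0 → G.m x z = 0) ∧ IsLeast {k | ReducedGenusLE G k} g ∧ ¬ ArcRep G g := by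
  have hCLK : CLK_stmt := CLK RED EVL
  have hGRP : GRP_stmt := GRP QGR LMP (CLA hCLK RED EVL)
  have hGEN : GEN_stmt := GEN CYL ROT FAC CON DIV
  have hNXT : NXT_stmt := NXT WLK
  exact FINS hGRP hGEN GFA (POS GFA) (EUL DIV) (SYS FRT hNXT WLK) CNX XCT ABS (UNI ABS) (MIS ABS) (CNT WRD)

end Pool.Agent.Results.MP_4536c8_co.NotArcGraph
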